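import Pool.Agent.MP_0be28d_co.Mg.AlB

set_option autoImplicit false

namespace Pool.Agent.Results.MP_0be28d_co.AlmostAll

open Pool.Agent.MP_0be28d_co.A55

/-- For every girth `g`, the degrees `k ≤ K` for which some `(k,g)`-cage is not `k`-connected
number `O(K^(27/28))`. -/
theorem result :
    ∀ g : ℕ, 3 ≤ g → ∃ C : ℝ, ∀ K : ℕ,
      (({k : ℕ | 2 ≤ k ∧ k ≤ K ∧
        ¬ ∀ (V : Type) [Fintype V] (G : SimpleGraph V) [DecidableRel G.Adj],
          G.IsRegularOfDegree k →
          G.egirth = (g : ℕ∞) →
          (∀ m : ℕ, m < Fintype.card V →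
            ∀ (H : SimpleGraph (Fin m)) [DecidableRel H.Adj],
              ¬ (H.IsRegularOfDegree k ∧ H.egirth = (g : ℕ∞))) →
          (k < Fintype.card V ∧
            ∀ S : Finset V, S.card < k →
              (G.induce ((↑S : Set V)ᶜ)).Connected)} : Set ℕ).ncard : ℝ) ≤
        C * (K : ℝ) ^ (27 / 28 : ℝ) := by
  have hF : SFinal := final (tstep tutteSuff smallB scut) (bstep ore smallB pert big) pert big
  have hR : SRec := recur pair big minPair pert (delStep submod mirror) (star submod smallB) hF
  exact main_of (half (init pair) hR par) smallG es grow count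

end Pool.Agent.Results.MP_0be28d_co.AlmostAll
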