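import Pool.Agent.MP_0be28d_co.Mg.Bip

set_option autoImplicit false

namespace Pool.Agent.Results.MP_0be28d_co.Bipartite

open Pool.Agent.MP_0be28d_co

/-- Every bipartite `(k,g)`-cage of girth `g ≥ 10` is `k`-connected. -/
theorem result :
    ∀ (k g : ℕ), 2 ≤ k → 10 ≤ g →
      ∀ (V : Type) [Fintype V] (G : SimpleGraph V) [DecidableRel G.Adj],
        G.IsRegularOfDegree k →
        G.egirth = (g : ℕ∞) →
        (∀ m : ℕ, m < Fintype.card V →
          ∀ (H : SimpleGraph (Fin m)) [DecidableRel H.Adj],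
            ¬ (H.IsRegularOfDegree k ∧ H.egirth = (g : ℕ∞))) →
        G.IsBipartite →
        (k < Fintype.card V ∧
          ∀ S : Finset V, S.card < k →
            (G.induce ((↑S : Set V)ᶜ)).Connected) := by
  intro k g hk hg V _ G _ hreg hgirth hmin hbip
  classical
  obtain ⟨c⟩ := hbip
  let c' : G.Coloring Bool := SimpleGraph.recolorOfEquiv G finTwoEquiv c
  have hcol : ∀ a b, G.Adj a b → c' a ≠ c' b := fun a b h => c'.valid h
  have hac : ¬ G.IsAcyclic := by
    rw [← SimpleGraph.egirth_eq_top, hgirth]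
    exact ENat.natCast_ne_top _
  obtain ⟨a, w, _, hw⟩ := SimpleGraph.exists_egirth_eq_length.mpr hac
  have hgw : g = w.length := by
    rw [hgirth] at hw
    exact_mod_cast hw
  have hev : g % 2 = 0 := by
    rw [hgw]
    exact ((Wk.of_walk w).parity hcol).mpr rfl
  obtain ⟨r, rfl⟩ : ∃ r, g = 2 * r := ⟨g / 2, by omega⟩
  have hreg' : ∀ v, (Finset.univ.filter fun w => G.Adj v w).card = k := fun v => by
    rw [← hreg v, ← SimpleGraph.card_neighborFinset_eq_degree]
    congr 1
    ext w
    simp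
  have hG : GirthGe G (2 * r) := girthGe_iff.mpr hgirth.ge
  have hkV : k < Fintype.card V := by
    rw [← hreg a]
    exact G.degree_lt_card_verts a
  refine ⟨hkV, fun S hS => ?_⟩
  by_contra hcon
  obtain ⟨C, hC⟩ := exists_sep (K := k - 1) (by omega) (by omega) hcon
  obtain ⟨S', C', hs, h1, h2, h3⟩ := exists_min_sep hreg' (show k - 1 < k by omega) ⟨S, C, hC⟩
  obtain ⟨H, W, a1, a2, a3, a4⟩ := bip_smaller hreg' hk (by omega) hG c' hcol hs h1 h3
  have := no_smaller hk (by omega) hmin a1 a2 a3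
  omega

end Pool.Agent.Results.MP_0be28d_co.Bipartite
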