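import Pool.Agent.MP_0be28d_co.GirthFive

set_option autoImplicit false

namespace Pool.Agent.Results.MP_0be28d_co.GirthFive

open Pool.Agent.MP_0be28d_co

/-- For large `k`, a `(k,5)`-cage stays connected after deleting at most `2k/5` vertices. -/
theorem result :
    ∀ (k : ℕ), 300000 ≤ k →
      ∀ (V : Type) [Fintype V] (G : SimpleGraph V) [DecidableRel G.Adj],
        G.IsRegularOfDegree k →
        G.egirth = 5 →
        (∀ m : ℕ, m < Fintype.card V →
          ∀ (H : SimpleGraph (Fin m)) [DecidableRel H.Adj],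
            ¬ (H.IsRegularOfDegree k ∧ H.egirth = 5)) →
        ∀ S : Finset V, 5 * S.card ≤ 2 * k →
          (G.induce ((↑S : Set V)ᶜ)).Connected := by
  intro k hk V _ G _ hreg hgirth hmin S hS
  classical
  have hreg' : ∀ v, (Finset.univ.filter fun w => G.Adj v w).card = k := fun v => by
    rw [← hreg v, ← SimpleGraph.card_neighborFinset_eq_degree]
    congr 1
    ext w
    simp
  have hG : GirthGe G 5 := girthGe_iff.mpr hgirth.ge
  have hkV : k < Fintype.card V := by
    have hac : ¬ G.IsAcyclic := by
      rw [← SimpleGraph.egirth_eq_top, hgirth]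
      exact ENat.natCast_ne_top 5
    obtain ⟨a, _⟩ := SimpleGraph.exists_egirth_eq_length.mpr hac
    rw [← hreg a]
    exact G.degree_lt_card_verts a
  by_contra hcon
  obtain ⟨C, hC⟩ := exists_sep (K := S.card) le_rfl (by omega) hcon
  have hc : Five.Cut G S C (Finset.univ \ (C ∪ S)) := by
    refine ⟨fun a b c => no_triangle hG (by norm_num), fun a b c d h1 h2 h3 h4 => ?_,
      fun v => by simp; tauto, hC.disj, fun v hv => by simp at hv; exact hv.2,
      fun v hv => by simp [hv], fun a ha b hb hab => ?_⟩
    · by_cases e : c = a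
      · exact Or.inl e.symm
      · exact Or.inr (no_square hG le_rfl h1 h4.symm h2 h3.symm e)
    · exact (Finset.mem_sdiff.mp hb).2 (Finset.mem_union.mpr (hC.closed a ha b hab))
  obtain ⟨y, y1, y2⟩ := hC.out
  obtain ⟨H, W, a1, a2, a3, a4⟩ := Five.five_smaller hc hreg' (by omega) hS hC.ne
    ⟨y, by simp [y1, y2]⟩
  have := no_smaller (g := 5) (by omega) (by omega) hmin a1 a2 a3
  omega

end Pool.Agent.Results.MP_0be28d_co.GirthFive
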