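import Pool.Agent.MP_0be28d_co.Mg.Seven

set_option autoImplicit false

namespace Pool.Agent.Results.MP_0be28d_co.OddGirth

open Pool.Agent.MP_0be28d_co

/-- Every `(k,g)`-cage of odd girth `g ≠ 5` is `k`-connected. -/
theorem result :
    ∀ (k g : ℕ), 2 ≤ k → 3 ≤ g → Odd g → g ≠ 5 →
      ∀ (V : Type) [Fintype V] (G : SimpleGraph V) [DecidableRel G.Adj],
        G.IsRegularOfDegree k →
        G.egirth = (g : ℕ∞) →
        (∀ m : ℕ, m < Fintype.card V →
          ∀ (H : SimpleGraph (Fin m)) [DecidableRel H.Adj],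
            ¬ (H.IsRegularOfDegree k ∧ H.egirth = (g : ℕ∞))) →
        (k < Fintype.card V ∧
          ∀ S : Finset V, S.card < k →
            (G.induce ((↑S : Set V)ᶜ)).Connected) := by
  intro k g hk hg hodd h5 V _ G _ hreg hgirth hmin
  classical
  obtain ⟨r, rfl⟩ := hodd
  have hreg' : ∀ v, (Finset.univ.filter fun w => G.Adj v w).card = k := fun v => by
    rw [← hreg v, ← SimpleGraph.card_neighborFinset_eq_degree]
    congr 1
    ext w
    simp
  have hG : GirthGe G (2 * r + 1) := girthGe_iff.mpr hgirth.ge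
  have hkV : k < Fintype.card V := by
    have hac : ¬ G.IsAcyclic := by
      rw [← SimpleGraph.egirth_eq_top, hgirth]
      exact ENat.natCast_ne_top _
    obtain ⟨a, _⟩ := SimpleGraph.exists_egirth_eq_length.mpr hac
    rw [← hreg a]
    exact G.degree_lt_card_verts a
  refine ⟨hkV, fun S hS => ?_⟩
  by_contra hcon
  obtain ⟨C, hC⟩ := exists_sep (K := k - 1) (by omega) (by omega) hcon
  obtain ⟨S', C', hs, h1, h2, h3⟩ := exists_min_sep hreg' (show k - 1 < k by omega) ⟨S, C, hC⟩
  by_cases r1 : r = 1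
  · subst r1
    have := three_big hreg' hs
    have := no_smaller hk (by omega) hmin (regOn_top k) (girthGe_iff.mpr SimpleGraph.three_le_egirth)
      Finset.univ_nonempty
    simp only [Finset.card_univ, Fintype.card_fin] at this
    omega
  by_cases r3 : r = 3
  · subst r3
    obtain ⟨H, W, a1, a2, a3, a4⟩ := seven_smaller hreg' hk hG hs h1 h3
    have := no_smaller hk (by omega) hmin a1 a2 a3
    omega
  obtain ⟨H, W, a1, a2, a3, a4⟩ := odd_smaller hreg' hk (by omega) hG hs h1 h3
  have := no_smaller hk (by omega) hmin a1 a2 a3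
  omega

end Pool.Agent.Results.MP_0be28d_co.OddGirth
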